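import Mathlib
import Pool.Agent.Y428.Tu.Mix

/-!
# The sign of the multivariate Tutte polynomial for weights at most `-q` or non-negative

For `q` at least `10 ^ (10 ^ 13)` the sign and the zeros of the multivariate Tutte polynomial are
determined for all graphs and all edge weights in `(-∞, -q] ∪ [0, ∞)`, and for weights below `-q`
the polynomial is computed up to a factor exponentially close to one per vertex. In particular
`R₃` is not contained in the closure of the zero set.
-/

set_option autoImplicit false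
set_option maxHeartbeats 1000000

open Finset Pool.Agent.H753R2.FR Pool.Agent.Y428.Tu

namespace Pool.Agent.Results.MP_58ca84_co.MixedWeights

/-- the number `k(A)` of connected components of the spanning subgraph with edge set `A` of the
multigraph with vertex set `Fin n` and edges `Fin k`, the ends of the edge `e` being the two entries
of `ends e` (loops and parallel edges are allowed) -/
noncomputable def comps {n k : ℕ} (ends : Fin k → Fin n × Fin n) (A : Finset (Fin k)) : ℕ :=
  Nat.card (SimpleGraph.fromRel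
    (fun a b : Fin n => ∃ f ∈ A, ends f = (a, b))).ConnectedComponent

/-- the multivariate Tutte polynomial `Z(G;q,v) = ∑_{A ⊆ E} q^{k(A)} ∏_{e ∈ A} v_e` -/
noncomputable def Z {n k : ℕ} (ends : Fin k → Fin n × Fin n) (q : ℝ) (v : Fin k → ℝ) : ℝ :=
  ∑ A : Finset (Fin k), q ^ comps ends A * ∏ e ∈ A, v e

/-- the edge `e` is a bridge of the spanning subgraph with edge set `S`: removing it changes the
number of components -/
def IsBridge {n k : ℕ} (ends : Fin k → Fin n × Fin n) (S : Finset (Fin k)) (e : Fin k) : Prop :=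
  comps ends (S.erase e) ≠ comps ends S

/-- the set of the pairs `(q, v)` with `Z(G;q,v) = 0` for some graph `G`, all weights being `v` -/
def zeroSet : Set (ℝ × ℝ) :=
  {p | ∃ (n k : ℕ) (ends : Fin k → Fin n × Fin n), Z ends p.1 (fun _ => p.2) = 0}

/-- the region `R₃ = {(q, v) : q ≥ 4, v < -q}` -/
def R3 : Set (ℝ × ℝ) := {p | 4 ≤ p.1 ∧ p.2 < -p.1}

theorem comps_eq {n k : ℕ} (ends : Fin k → Fin n × Fin n) (A : Finset (Fin k)) :
    comps ends A = cl (conn (D6b.gr ends) A) := D6b.cl_conn_eq ends A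

theorem Z_eq {n k : ℕ} (ends : Fin k → Fin n × Fin n) (q : ℝ) (v : Fin k → ℝ) :
    Z ends q v = ZZ (D6b.gr ends) q v ⊥ univ ∅ := by
  unfold Z ZZ
  rw [Finset.powerset_univ]
  refine Finset.sum_congr rfl fun A _ => ?_
  rw [m_empty, bot_sup_eq, comps_eq, mul_comm]

theorem sg_eq {k : ℕ} (v : Fin k → ℝ) :
    sg v univ = (-1) ^ (univ.filter (fun e => v e < 0)).card := by
  unfold sg
  rw [Finset.prod_ite, Finset.prod_const, Finset.prod_const_one, mul_one]

theorem bridge_iff {n k : ℕ} (ends : Fin k → Fin n × Fin n) (S : Finset (Fin k)) (e : Fin k)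
    (he : e ∈ S) : IsBridge ends S e ↔
      ¬ (conn (D6b.gr ends) (S.erase e)) ((D6b.gr ends).x e) ((D6b.gr ends).y e) := by
  unfold IsBridge
  rw [comps_eq, comps_eq]
  have h1 : conn (D6b.gr ends) S = conn (D6b.gr ends) (S.erase e) ⊔
      pr ((D6b.gr ends).x e) ((D6b.gr ends).y e) := by
    rw [← conn_insert, Finset.insert_erase he]
  constructor
  · intro h h2
    rw [h1, E1.sup_pr_of_rel h2] at h
    exact h rfl
  · intro h h2
    have h3 := cl_sup_pr_of_not h
    rw [← h1] at h3
    omega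

theorem edges_zero {k : ℕ} (ends : Fin k → Fin 0 × Fin 0) : k = 0 := by
  rcases Nat.eq_zero_or_pos k with hk | hk
  · exact hk
  · exact (ends ⟨0, hk⟩).1.elim0

theorem comps_zero (ends : Fin 0 → Fin 0 × Fin 0) (A : Finset (Fin 0)) : comps ends A = 0 := by
  rw [comps_eq]
  have := E1.cl_le_card (conn (D6b.gr ends) A)
  rw [Fintype.card_fin] at this
  omega

theorem Z_zero (ends : Fin 0 → Fin 0 × Fin 0) (q : ℝ) (v : Fin 0 → ℝ) : Z ends q v = 1 := by
  unfold Z
  rw [Finset.sum_eq_single (∅ : Finset (Fin 0))]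
  · rw [comps_zero, Finset.prod_empty, pow_zero, one_mul]
  · intro A _ hA
    exact absurd (Finset.eq_empty_of_isEmpty A) hA
  · intro h
    exact absurd (Finset.mem_univ _) h

theorem consts : 4 * MM ^ 2 + 3 ≤ (10 : ℝ) ^ (10 ^ 13) ∧ (1 : ℝ) < (10 : ℝ) ^ (10 ^ 13) := by
  have h1 := MM_le
  have h2 := sq_nonneg MM
  constructor <;> linarith

theorem part_one (q : ℝ) (hq : (10 : ℝ) ^ (10 ^ 13) ≤ q) (n k : ℕ)
    (ends : Fin k → Fin n × Fin n) (v : Fin k → ℝ) (hv : ∀ e, v e ≤ -q ∨ 0 ≤ v e) :
    0 ≤ (-1) ^ (univ.filter (fun e => v e < 0)).card * Z ends q v ∧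
    (Z ends q v = 0 ↔ ∃ e, v e = -q ∧ IsBridge ends (univ.filter (fun f => v f ≠ 0)) e) := by
  obtain ⟨hc1, hc2⟩ := consts
  have hqM : 4 * MM ^ 2 + 3 ≤ q := hc1.trans hq
  have hq1 : 1 < q := lt_of_lt_of_le hc2 hq
  rcases Nat.eq_zero_or_pos n with hn | hn
  · subst hn
    have hk := edges_zero ends
    subst hk
    rw [Z_zero]
    constructor
    · have : (univ.filter (fun e : Fin 0 => v e < 0)).card = 0 := by
        rw [Finset.card_eq_zero]
        exact Finset.eq_empty_of_isEmpty _
      rw [this]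
      norm_num
    · constructor
      · intro h
        norm_num at h
      · rintro ⟨e, _⟩
        exact e.elim0
  · have hNe : Nonempty (Fin n) := ⟨⟨0, hn⟩⟩
    have hnn : ∀ (r : Setoid (Fin n)) (S : Finset (Fin k)), 0 ≤ m (D6b.gr ends) q r S :=
      fun r S => nonneg_all hqM _ r S
    have hpos : ∀ (r : Setoid (Fin n)) (S : Finset (Fin k)),
        (∀ e ∈ S, (r ⊔ conn (D6b.gr ends) (S.erase e)) ((D6b.gr ends).x e) ((D6b.gr ends).y e)) →
          0 < m (D6b.gr ends) q r S := fun r S hb =>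
      E1.pos_of_ok q _ r S (ok_all hqM _ _) hb
    rw [← sg_eq, Z_eq]
    refine ⟨ZZ_nonneg _ q v hq1 hnn hv univ ⊥ ∅ (Finset.disjoint_empty_right _), ?_⟩
    constructor
    · intro h0
      by_contra hcon
      push Not at hcon
      have h1 := ZZ_pos (D6b.gr ends) q v hq1 hnn hpos hv univ ⊥ ∅
        (Finset.disjoint_empty_right _) (by
          intro e he
          have hve : v e = -q := by
            rcases he with h | h
            · simp at h
            · exact h.2
          have h2 := hcon e hve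
          rw [bridge_iff ends _ e (by
            rw [Finset.mem_filter]
            exact ⟨Finset.mem_univ _, by intro h; linarith⟩)] at h2
          rw [not_not] at h2
          rw [Finset.empty_union, bot_sup_eq]
          exact h2)
      rw [h0, mul_zero] at h1
      exact lt_irrefl _ h1
    · rintro ⟨e, hve, hbr⟩
      rw [bridge_iff ends _ e (by
        rw [Finset.mem_filter]
        exact ⟨Finset.mem_univ _, by intro h; linarith⟩)] at hbr
      exact ZZ_zero _ q v hve hbr

theorem part_two (q δ : ℝ) (hδ0 : 0 < δ) (hδ1 : δ ≤ 1) (hq : (10 : ℝ) ^ (10 ^ 13) ≤ δ * q)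
    (n k : ℕ) (ends : Fin k → Fin n × Fin n) (v : Fin k → ℝ) (hv' : ∀ e, v e < -q)
    (hb : ∀ e, ¬ IsBridge ends univ e) :
    (1 - δ) ^ (n - comps ends univ) * (q ^ comps ends univ * ∏ e, (|v e| - 1)) ≤
      (-1) ^ k * Z ends q v ∧
    (-1) ^ k * Z ends q v ≤
      (1 + δ) ^ (n - comps ends univ) * (q ^ comps ends univ * ∏ e, (|v e| - 1)) := by
  have hv : ∀ e, v e ≤ -q := fun e => (hv' e).le
  obtain ⟨hc1, hc2⟩ := consts
  have hq0 : 0 < q := by
    by_contra h
    push Not at h
    have := mul_nonpos_of_nonneg_of_nonpos hδ0.le h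
    linarith
  have hδq : δ * q ≤ q := by nlinarith
  have hqM : 4 * MM ^ 2 + 3 ≤ q := (hc1.trans hq).trans hδq
  have hq1 : 1 < q := lt_of_lt_of_le hc2 (hq.trans hδq)
  rcases Nat.eq_zero_or_pos n with hn | hn
  · subst hn
    have hk := edges_zero ends
    subst hk
    rw [Z_zero, comps_zero]
    simp
  · have hNe : Nonempty (Fin n) := ⟨⟨0, hn⟩⟩
    have hsg : sg v univ = (-1) ^ k := by
      rw [sg_eq, Finset.filter_true_of_mem (fun e _ => by have := hv e; linarith),
        Finset.card_univ, Fintype.card_fin]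
    have habs : ∀ e, |v e| - 1 = -v e - 1 := fun e => by
      rw [abs_of_neg (by have := hv e; linarith)]
    have h1 := ZZ_two (D6b.gr ends) q v (δ := δ) hq1 hδ0.le hδ1
      (two_sided hqM (by linarith) hδ1) hv univ ⊥ ∅ (Finset.disjoint_empty_right _) (by
        intro e _
        have h2 := hb e
        rw [bridge_iff ends univ e (Finset.mem_univ e), not_not] at h2
        rw [Finset.union_empty, bot_sup_eq]
        exact h2)
    rw [Finset.union_empty, bot_sup_eq, cl_bot, Fintype.card_fin, hsg, ← Z_eq, ← comps_eq] at h1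
    obtain ⟨h2, h3⟩ := h1
    simp only [habs]
    constructor
    · refine le_trans (le_of_eq ?_) h2
      ring
    · refine le_trans h3 (le_of_eq ?_)
      ring

theorem not_mem_closure (q v : ℝ) (hq : (10 : ℝ) ^ (10 ^ 13) < q) (hv : v < -q) :
    (q, v) ∉ closure zeroSet := by
  have hopen : IsOpen {p : ℝ × ℝ | (10 : ℝ) ^ (10 ^ 13) < p.1 ∧ p.2 < -p.1} :=
    (isOpen_lt continuous_const continuous_fst).inter
      (isOpen_lt continuous_snd continuous_fst.neg)
  intro h
  rw [mem_closure_iff] at h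
  obtain ⟨p, hp1, hp2⟩ := h _ hopen ⟨hq, hv⟩
  obtain ⟨n, k, ends, hz⟩ := hp2
  have h1 := (part_one p.1 hp1.1.le n k ends (fun _ => p.2) (fun _ => Or.inl hp1.2.le)).2.mp hz
  obtain ⟨_, h2, _⟩ := h1
  have h3 := hp1.2
  linarith

/-- (1) For `q ≥ 10^(10^13)`, every graph and all edge weights in `(-∞, -q] ∪ [0, ∞)` the number
`Z(G;q,v)` is zero or has the sign `(-1)^{number of negative weights}`, and it is zero only if an
edge with weight `-q` is a bridge of the graph formed by the edges with non-zero weight.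
(2) If all weights are less than `-q` and `G` is bridgeless, then `|Z(G;q,v)|` is
`q^c ∏ (|v_e| - 1)` up to a factor between `(1-δ)^{n-c}` and `(1+δ)^{n-c}`, for all `δ ≤ 1` with
`δ q ≥ 10^(10^13)`; here `n` is the number of vertices and `c` the number of components.
(3) No point with `q > 10^(10^13)`, `v < -q` is in the closure of the zero set of the dichromatic
polynomials; (4) `R₃` is not contained in that closure. -/
theorem result :
    (∀ q : ℝ, (10 : ℝ) ^ (10 ^ 13) ≤ q → ∀ (n k : ℕ) (ends : Fin k → Fin n × Fin n)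
      (v : Fin k → ℝ), (∀ e, v e ≤ -q ∨ 0 ≤ v e) →
      0 ≤ (-1) ^ (univ.filter (fun e => v e < 0)).card * Z ends q v ∧
      (Z ends q v = 0 ↔
        ∃ e, v e = -q ∧ IsBridge ends (univ.filter (fun f => v f ≠ 0)) e)) ∧
    (∀ q δ : ℝ, 0 < δ → δ ≤ 1 → (10 : ℝ) ^ (10 ^ 13) ≤ δ * q →
      ∀ (n k : ℕ) (ends : Fin k → Fin n × Fin n) (v : Fin k → ℝ), (∀ e, v e < -q) →
      (∀ e, ¬ IsBridge ends univ e) →
      (1 - δ) ^ (n - comps ends univ) * (q ^ comps ends univ * ∏ e, (|v e| - 1)) ≤
        (-1) ^ k * Z ends q v ∧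
      (-1) ^ k * Z ends q v ≤
        (1 + δ) ^ (n - comps ends univ) * (q ^ comps ends univ * ∏ e, (|v e| - 1))) ∧
    (∀ q v : ℝ, (10 : ℝ) ^ (10 ^ 13) < q → v < -q → (q, v) ∉ closure zeroSet) ∧
    ¬ R3 ⊆ closure zeroSet := by
  refine ⟨part_one, part_two, not_mem_closure, ?_⟩
  intro hsub
  have hc := consts
  have h1 : (((10 : ℝ) ^ (10 ^ 13) + 4, -((10 : ℝ) ^ (10 ^ 13) + 5)) : ℝ × ℝ) ∈ R3 := by
    constructor
    · show (4 : ℝ) ≤ (10 : ℝ) ^ (10 ^ 13) + 4
      linarith
    · show -((10 : ℝ) ^ (10 ^ 13) + 5) < -((10 : ℝ) ^ (10 ^ 13) + 4)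
      linarith
  exact not_mem_closure _ _ (by linarith) (by linarith) (hsub h1)

end Pool.Agent.Results.MP_58ca84_co.MixedWeights
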