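import Pool.Agent.H194R2.JS.Final

/-!
# Self-dual intervals for the multivariate Tutte polynomial (MP_58ca84_co, Q2)

For every `q` in `(0,1) ∪ (1,32/27)` there are self-dual intervals `I_2(q) ⊆ I_3(q) ⊆ ...` which converge
to the interval between `q / v` and `v`, where `v` is the middle root of `v³ - 2 q v - q² = 0`, such
that `(-1)^(n+α) Z(G; q, w) > 0` for every 2-connected graph `G` with `n` vertices and at least `m` edges
and all edge weights in `I_m(q)`.
-/

namespace Pool.Agent.Results.MP_58ca84_co.SelfDualIntervals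

open Finset Filter Topology

/-- A finite multigraph (loops and parallel edges allowed) is given by a finite type `V` of
vertices, a finite type `E` of edges and the two ends `en e` of every edge `e`. `comps en A` is the
number `k(A)` of connected components of the spanning subgraph `(V, A)`: the number of classes of
the equivalence relation on `V` generated by `u ~ v` if some edge in `A` has the ends `u`, `v`. -/
noncomputable def comps {V E : Type} (en : E → V × V) (A : Finset E) : ℕ :=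
  Nat.card (Quot fun u v : V => ∃ e ∈ A, en e = (u, v))

/-- The multivariate Tutte polynomial `Z(G; q, w) = ∑_{A ⊆ E} q ^ k(A) ∏_{e ∈ A} w e`. -/
noncomputable def Z {V E : Type} [Fintype E] (en : E → V × V) (q : ℝ) (w : E → ℝ) : ℝ :=
  ∑ A : Finset E, q ^ comps en A * ∏ e ∈ A, w e

/-- `u` and `v` are joined by a walk of the graph that avoids the vertices outside `P`. -/
def Joined {V E : Type} (en : E → V × V) (P : V → Prop) (u v : V) : Prop :=
  Relation.ReflTransGen (fun a b => P a ∧ P b ∧ ∃ e, en e = (a, b) ∨ en e = (b, a)) u v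

/-- The graph is 2-connected: it has no loops, at least two vertices, it is connected, and it remains
connected if any vertex is deleted. (So two vertices joined by parallel edges form a 2-connected
graph.) -/
def TwoConnected {V E : Type} (en : E → V × V) : Prop :=
  (∀ e, (en e).1 ≠ (en e).2) ∧ (∃ u v : V, u ≠ v) ∧ (∀ u v, Joined en (fun _ => True) u v) ∧
    ∀ x u v : V, u ≠ x → v ≠ x → Joined en (fun a => a ≠ x) u v

/-- `v` is the middle root of `v³ - 2 q v - q² = 0`: a root between two other real roots. -/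
def IsMiddleRoot (q v : ℝ) : Prop :=
  v ^ 3 - 2 * q * v - q ^ 2 = 0 ∧ (∃ u < v, u ^ 3 - 2 * q * u - q ^ 2 = 0) ∧
    ∃ u > v, u ^ 3 - 2 * q * u - q ^ 2 = 0

section Aux

variable {V E : Type} [DecidableEq V] [DecidableEq E]

open Pool.Agent.H194R2.JS (vs TC)

theorem mem_vs {en : E → V × V} {A : Finset E} {v : V} :
    v ∈ vs en A ↔ ∃ e ∈ A, (en e).1 = v ∨ (en e).2 = v := by
  unfold vs
  simp only [mem_union, mem_image]
  constructor
  · rintro (⟨e, he, h⟩ | ⟨e, he, h⟩)
    · exact ⟨e, he, Or.inl h⟩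
    · exact ⟨e, he, Or.inr h⟩
  · rintro ⟨e, he, h | h⟩
    · exact Or.inl ⟨e, he, h⟩
    · exact Or.inr ⟨e, he, h⟩

/-- propagation along a walk which avoids the common vertices -/
theorem walk_mem {en : E → V × V} {A B : Finset E} (hAB : ∀ e, e ∈ A ∨ e ∈ B) {P : V → Prop}
    (hP : ∀ a, P a → ¬(a ∈ vs en A ∧ a ∈ vs en B)) {u v : V} (h : Joined en P u v)
    (hu : u ∈ vs en A) : v ∈ vs en A := by
  unfold Joined at h
  induction h with
  | refl => exact hu
  | tail _ hbc ih =>
    rename_i b c _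
    obtain ⟨hb, _, e, he⟩ := hbc
    have heb : e ∈ A ∨ e ∈ B := hAB e
    have hbe : (en e).1 = b ∨ (en e).2 = b := by
      rcases he with h | h <;> simp [h]
    have hce : (en e).1 = c ∨ (en e).2 = c := by
      rcases he with h | h <;> simp [h]
    rcases heb with h | h
    · exact mem_vs.2 ⟨e, h, hce⟩
    · exact absurd ⟨ih, mem_vs.2 ⟨e, h, hbe⟩⟩ (hP b hb)

theorem two_vs {en : E → V × V} (hl : ∀ e, (en e).1 ≠ (en e).2) {A : Finset E} (hA : A.Nonempty)
    (x : V) : ∃ u, u ≠ x ∧ u ∈ vs en A := by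
  obtain ⟨e, he⟩ := hA
  by_cases h : (en e).1 = x
  · exact ⟨(en e).2, fun h2 => hl e (h.trans h2.symm), mem_vs.2 ⟨e, he, Or.inr rfl⟩⟩
  · exact ⟨(en e).1, h, mem_vs.2 ⟨e, he, Or.inl rfl⟩⟩

theorem tc_of [Fintype E] {en : E → V × V} (h : TwoConnected en) (hc : 2 ≤ Fintype.card E) :
    TC en (univ : Finset E) := by
  obtain ⟨hl, _, hconn, hcut⟩ := h
  refine ⟨hc, fun A _ hA hne => ?_⟩
  have hB : (univ \ A).Nonempty := by
    rw [sdiff_nonempty]
    intro hsub
    exact hne (eq_univ_iff_forall.2 fun e => hsub (mem_univ e))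
  have hAB : ∀ e, e ∈ A ∨ e ∈ univ \ A := by
    intro e
    by_cases he : e ∈ A
    · exact Or.inl he
    · exact Or.inr (mem_sdiff.2 ⟨mem_univ e, he⟩)
  by_contra hlt
  have hle : (vs en A ∩ vs en (univ \ A)).card ≤ 1 := by omega
  obtain ⟨e0, he0⟩ := hA
  have hu0 : (en e0).1 ∈ vs en A := mem_vs.2 ⟨e0, he0, Or.inl rfl⟩
  obtain ⟨e1, he1⟩ := hB
  have hu1 : (en e1).1 ∈ vs en (univ \ A) := mem_vs.2 ⟨e1, he1, Or.inl rfl⟩
  rcases (vs en A ∩ vs en (univ \ A)).eq_empty_or_nonempty with hemp | ⟨x, hx⟩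
  · have h1 := walk_mem hAB (P := fun _ => True) (fun a _ hh => by
      have : a ∈ vs en A ∩ vs en (univ \ A) := mem_inter.2 hh
      rw [hemp] at this
      exact absurd this (notMem_empty a)) (hconn (en e0).1 (en e1).1) hu0
    have : (en e1).1 ∈ vs en A ∩ vs en (univ \ A) := mem_inter.2 ⟨h1, hu1⟩
    rw [hemp] at this
    exact absurd this (notMem_empty _)
  · have hx1 : ∀ a, a ∈ vs en A → a ∈ vs en (univ \ A) → a = x := fun a ha hb =>
      card_le_one.1 hle a (mem_inter.2 ⟨ha, hb⟩) x hx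
    obtain ⟨u, hux, hu⟩ := two_vs hl ⟨e0, he0⟩ x
    obtain ⟨w, hwx, hw⟩ := two_vs hl ⟨e1, he1⟩ x
    have h1 := walk_mem hAB (P := fun a => a ≠ x) (fun a hax hh => hax (hx1 a hh.1 hh.2))
      (hcut x u w hux hwx) hu
    exact hwx (hx1 w h1 hw)

theorem vs_univ [Fintype V] [Fintype E] {en : E → V × V} (h : TwoConnected en) :
    vs en (univ : Finset E) = univ := by
  obtain ⟨_, ⟨a, b, hab⟩, hconn, _⟩ := h
  rw [eq_univ_iff_forall]
  intro v
  -- another vertex
  obtain ⟨w, hw⟩ : ∃ w, v ≠ w := by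
    by_cases hva : v = a
    · exact ⟨b, fun h => hab (hva.symm.trans h)⟩
    · exact ⟨a, hva⟩
  have h1 := hconn v w
  unfold Joined at h1
  rcases Relation.ReflTransGen.cases_head h1 with h2 | ⟨c, ⟨_, _, e, he⟩, _⟩
  · exact absurd h2 hw
  · refine mem_vs.2 ⟨e, mem_univ e, ?_⟩
    rcases he with h | h <;> simp [h]

end Aux

/-- **Q2.** For every `q ∈ (0,1) ∪ (1,32/27)` let `v` be the middle root of `v³ - 2 q v - q² = 0`. There
are intervals `I_m = [lo m, hi m]`, `m ≥ 2`, increasing with `m`, each of them self-dual (`w ∈ I_m`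
implies `q / w ∈ I_m`), with `lo m → q / v` and `hi m → v`, such that `(-1)^(n+α) Z(G; q, w) > 0` for
every 2-connected finite graph `G` with `n` vertices and at least `m` edges and all edge weights `w e` in
`I_m`, where `α = 1` if `q < 1` and `α = 0` if `q > 1`. -/
theorem result (q : ℝ) (hq : (0 < q ∧ q < 1) ∨ (1 < q ∧ q < 32 / 27)) :
    ∃ v : ℝ, IsMiddleRoot q v ∧ (∀ v', IsMiddleRoot q v' → v' = v) ∧
    ∃ lo hi : ℕ → ℝ,
      (∀ m, 2 ≤ m → lo m < hi m ∧ Set.Icc (lo m) (hi m) ⊆ Set.Icc (lo (m + 1)) (hi (m + 1)) ∧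
        ∀ w ∈ Set.Icc (lo m) (hi m), q / w ∈ Set.Icc (lo m) (hi m)) ∧
      Tendsto lo atTop (𝓝 (q / v)) ∧ Tendsto hi atTop (𝓝 v) ∧
      ∀ m, 2 ≤ m → ∀ (V E : Type) [Fintype V] [Fintype E] (en : E → V × V) (w : E → ℝ),
        TwoConnected en → m ≤ Fintype.card E → (∀ e, w e ∈ Set.Icc (lo m) (hi m)) →
        0 < (-1 : ℝ) ^ (Fintype.card V + if q < 1 then 1 else 0) * Z en q w := by
  classical
  obtain ⟨v, hmid, hneg, lo, hi, h1, h2, h3, h4⟩ := Pool.Agent.H194R2.JS.intervals (q := q) hq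
  refine ⟨v, hmid, ?_, lo, hi, fun m _ => ?_, h2, h3, ?_⟩
  · -- uniqueness of the middle root
    rintro v' ⟨hr, ⟨a, ha, hra⟩, b, hb, hrb⟩
    obtain ⟨hr0, ⟨c, hc, hrc⟩, d, hd, hrd⟩ := hmid
    -- sums of three distinct roots vanish
    have key : ∀ x y z : ℝ, x < y → y < z → x ^ 3 - 2 * q * x - q ^ 2 = 0 →
        y ^ 3 - 2 * q * y - q ^ 2 = 0 → z ^ 3 - 2 * q * z - q ^ 2 = 0 → x + y + z = 0 := by
      intro x y z hxy hyz hx hy hz
      have e1 : (x - y) * (x ^ 2 + x * y + y ^ 2 - 2 * q) = 0 := by ring_nf; linarith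
      have e2 : (y - z) * (y ^ 2 + y * z + z ^ 2 - 2 * q) = 0 := by ring_nf; linarith
      have e3 : x ^ 2 + x * y + y ^ 2 - 2 * q = 0 := by
        rcases mul_eq_zero.1 e1 with h | h
        · exfalso; linarith
        · exact h
      have e4 : y ^ 2 + y * z + z ^ 2 - 2 * q = 0 := by
        rcases mul_eq_zero.1 e2 with h | h
        · exfalso; linarith
        · exact h
      have e5 : (x - z) * (x + y + z) = 0 := by ring_nf; linarith
      rcases mul_eq_zero.1 e5 with h | h
      · exfalso; linarith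
      · exact h
    have k1 := key a v' b ha hb hra hr hrb
    have k2 := key c v d hc hd hrc hr0 hrd
    rcases lt_trichotomy v' v with h | h | h
    · -- `a < v' < v < d`
      have k3 := key a v' v ha h hra hr hr0
      have k4 := key v' v d h hd hr hr0 hrd
      linarith
    · exact h
    · have k3 := key c v v' hc h hrc hr0 hr
      have k4 := key v v' b h hb hr0 hr hrb
      linarith
  · obtain ⟨g1, g2, g3, g4⟩ := h1 m
    exact ⟨g1, Set.Icc_subset_Icc g2 g3, g4⟩
  · intro m hm V E _ _ en w hG hcard hw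
    have h5 := h4 m V E en univ w (tc_of hG (hm.trans hcard)) (by rwa [card_univ])
      (fun e _ => hw e)
    rw [vs_univ hG, card_univ] at h5
    have e1 : Z en q w = Pool.Agent.H194R2.JS.F q en w ∅ univ := by
      unfold Pool.Agent.H194R2.JS.F Z
      rw [powerset_univ]
      refine sum_congr rfl ?_
      intro A _
      rw [empty_union]
      rfl
    rw [e1]
    exact h5

end Pool.Agent.Results.MP_58ca84_co.SelfDualIntervals
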